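import Mathlib

namespace Pool.Agent.MP_9d3c7b_al

open DirectSum

/-- A family of subgroups with compatible projections gives an internal direct sum. -/
theorem isInternal_of_proj {ι M : Type*} [DecidableEq ι] [AddCommGroup M]
    (gr : ι → AddSubgroup M) (P : ι → M →+ M)
    (h2 : ∀ l m, m ∈ gr l → P l m = m)
    (h3 : ∀ l l' m, m ∈ gr l' → l' ≠ l → P l m = 0)
    (h4 : ∀ m, m ∈ ⨆ l, gr l) : DirectSum.IsInternal gr := by
  have key : ∀ (x : ⨁ l, gr l) (l : ι), P l (DirectSum.coeAddMonoidHom gr x) = (x l : M) := by
    intro x l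
    induction x using DirectSum.induction_on with
    | zero => simp
    | of i y =>
      rw [DirectSum.coeAddMonoidHom_of]
      by_cases h : i = l
      · subst h
        rw [DirectSum.of_eq_same]
        exact h2 _ _ y.2
      · rw [DirectSum.of_eq_of_ne _ _ _ (Ne.symm h)]
        simpa using h3 l i y y.2 h
    | add x y hx hy => simp [hx, hy]
  constructor
  · rw [injective_iff_map_eq_zero]
    intro x hx
    ext l
    rw [← key, hx]
    simp
  · intro m
    have : (⨆ l, gr l) ≤ (DirectSum.coeAddMonoidHom gr).range := by
      refine iSup_le fun l y hy => ⟨DirectSum.of (fun l => gr l) l ⟨y, hy⟩, ?_⟩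
      simp [DirectSum.coeAddMonoidHom_of]
    exact this (h4 m)

/-- The projection onto a summand of an internal direct sum. -/
noncomputable def projOf {ι M : Type*} [DecidableEq ι] [AddCommGroup M]
    (gr : ι → AddSubgroup M) (h : DirectSum.IsInternal gr) (l : ι) : M →+ M :=
  letI := h.chooseDecomposition
  { toFun := fun m => (DirectSum.decompose gr m l : M)
    map_zero' := by simp
    map_add' := fun a b => by simp }

section
variable {ι M : Type*} [DecidableEq ι] [AddCommGroup M]
    (gr : ι → AddSubgroup M) (h : DirectSum.IsInternal gr)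

theorem projOf_mem (l : ι) (m : M) : projOf gr h l m ∈ gr l := by
  let := h.chooseDecomposition
  exact (DirectSum.decompose gr m l).2

theorem projOf_same {l : ι} {m : M} (hm : m ∈ gr l) : projOf gr h l m = m := by
  let := h.chooseDecomposition
  exact DirectSum.decompose_of_mem_same gr hm

theorem projOf_ne {l l' : ι} {m : M} (hm : m ∈ gr l') (hl : l' ≠ l) : projOf gr h l m = 0 := by
  let := h.chooseDecomposition
  exact DirectSum.decompose_of_mem_ne gr hm hl

theorem projOf_sum (m : M) : ∃ T : Finset ι, ∑ l ∈ T, projOf gr h l m = m := by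
  classical
  let := h.chooseDecomposition
  exact ⟨_, DirectSum.sum_support_decompose gr m⟩

include h in
theorem mem_iSup_of_internal (m : M) : m ∈ ⨆ l, gr l := by
  obtain ⟨T, hT⟩ := projOf_sum gr h m
  rw [← hT]
  exact AddSubgroup.sum_mem _ fun l _ => AddSubgroup.mem_iSup_of_mem l (projOf_mem gr h l m)

end

theorem isInternal_shift {ι M : Type*} [DecidableEq ι] [AddCommGroup ι] [AddCommGroup M]
    (gr : ι → AddSubgroup M) (h : DirectSum.IsInternal gr) (d : ι) :
    DirectSum.IsInternal fun l => gr (l + d) := by
  refine isInternal_of_proj _ (fun l => projOf gr h (l + d)) (fun l m hm => projOf_same gr h hm)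
    (fun l l' m hm hl => projOf_ne gr h hm (by simpa using hl)) fun m => ?_
  have : (⨆ l, gr l) ≤ ⨆ l, gr (l + d) := by
    refine iSup_le fun l => ?_
    have := le_iSup (fun l => gr (l + d)) (l - d)
    simpa using this
  exact this (mem_iSup_of_internal gr h m)

end Pool.Agent.MP_9d3c7b_al
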