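import Pool.Agent.MP_9d3c7b_al.CM

namespace Pool.Agent.MP_9d3c7b_al

open MvPolynomial Matrix

universe u

variable {k : Type u} [Field k] {S : Type u} [CommRing S] [Algebra k S] {L : Type} [AddCommGroup L]
  {xx : Fin 3 → S} {ww : Fin 3 → L}

open scoped Classical in
/-- Homogeneous component. -/
noncomputable def GrMod.pr (M : GrMod k xx ww) (l : L) : M.car →+ M.car :=
  projOf M.gr M.internal l

open scoped Classical in
theorem GrMod.pr_mem (M : GrMod k xx ww) (l : L) (m : M.car) : M.pr l m ∈ M.gr l :=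
  projOf_mem _ _ _ _

open scoped Classical in
theorem GrMod.pr_same (M : GrMod k xx ww) {l : L} {m : M.car} (h : m ∈ M.gr l) :
    M.pr l m = m := projOf_same _ _ h

open scoped Classical in
theorem GrMod.pr_ne (M : GrMod k xx ww) {l l' : L} {m : M.car} (h : m ∈ M.gr l')
    (hl : l' ≠ l) : M.pr l m = 0 := projOf_ne _ _ h hl

open scoped Classical in
theorem GrMod.pr_sum (M : GrMod k xx ww) (m : M.car) :
    ∃ T : Finset L, ∑ l ∈ T, M.pr l m = m := projOf_sum _ _ m

open scoped Classical in
theorem GrMod.mem_iSup (M : GrMod k xx ww) (m : M.car) : m ∈ ⨆ l, M.gr l :=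
  mem_iSup_of_internal _ M.internal m

theorem GrMod.pr_map (M N : GrMod k xx ww) (φ : M.car →+ N.car) (d : L)
    (hφ : ∀ l m, m ∈ M.gr l → φ m ∈ N.gr (l + d)) (l : L) (m : M.car) :
    N.pr (l + d) (φ m) = φ (M.pr l m) := by
  refine AddSubgroup.iSup_induction M.gr (C := fun m => N.pr (l + d) (φ m) = φ (M.pr l m))
    (M.mem_iSup m) ?_ (by simp) ?_
  · intro l' m hm
    by_cases h : l' = l
    · subst h
      rw [M.pr_same hm, N.pr_same (hφ _ _ hm)]
    · rw [M.pr_ne hm h, N.pr_ne (hφ _ _ hm) (by simpa using h), map_zero]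
  · intro a b ha hb
    simp only [map_add, ha, hb]

theorem IsHom.pr {M N : GrMod k xx ww} {φ : M.car →ₗ[S] N.car} (h : IsHom M N φ)
    (l : L) (m : M.car) : N.pr l (φ m) = φ (M.pr l m) := by
  have := M.pr_map N φ.toAddMonoidHom 0 (fun l m hm => by simpa using h l m hm) l m
  simpa using this

theorem IsHom.comp {M N P : GrMod k xx ww} {φ : M.car →ₗ[S] N.car}
    {ψ : N.car →ₗ[S] P.car} (hψ : IsHom N P ψ) (hφ : IsHom M N φ) :
    IsHom M P (ψ ∘ₗ φ) := fun l m hm => hψ l _ (hφ l m hm)

theorem IsHom.id (M : GrMod k xx ww) : IsHom M M LinearMap.id := fun _ _ hm => hm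

variable (k xx ww) in
/-- Elements of S acting with degree d. -/
def HS (d : L) (s : S) : Prop :=
  ∀ (M : GrMod k xx ww) (l : L) (m : M.car), m ∈ M.gr l → s • m ∈ M.gr (l + d)

theorem HS.zero (d : L) : HS k xx ww d (0 : S) := fun M l m _ => by
  rw [_root_.zero_smul S m]; exact zero_mem _

theorem HS.add {d : L} {s t : S} (hs : HS k xx ww d s) (ht : HS k xx ww d t) : HS k xx ww d (s + t) :=
  fun M l m hm => by rw [add_smul]; exact add_mem (hs M l m hm) (ht M l m hm)

theorem HS.neg {d : L} {s : S} (hs : HS k xx ww d s) : HS k xx ww d (-s) :=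
  fun M l m hm => by rw [neg_smul]; exact neg_mem (hs M l m hm)

theorem HS.sub {d : L} {s t : S} (hs : HS k xx ww d s) (ht : HS k xx ww d t) : HS k xx ww d (s - t) := by
  rw [sub_eq_add_neg]; exact hs.add ht.neg

theorem HS.of_eq {d d' : L} {s : S} (hs : HS k xx ww d s) (h : d = d') : HS k xx ww d' s := h ▸ hs

theorem HS.mul {d e : L} {s t : S} (hs : HS k xx ww d s) (ht : HS k xx ww e t) :
    HS k xx ww (d + e) (s * t) := fun M l m hm => by
  rw [mul_smul, add_comm d e, ← add_assoc]
  exact hs M _ _ (ht M l m hm)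

theorem HS.const (a : k) : HS k xx ww (0 : L) (algebraMap k S a) := fun M l m hm => by
  rw [add_zero]; exact M.const_mem a l m hm

theorem HS.one : HS k xx ww (0 : L) (1 : S) := fun M l m hm => by
  rw [add_zero, one_smul]; exact hm

theorem HS.var (i : Fin 3) : HS k xx ww (ww i) (xx i) := fun M l m hm => M.var_mem i l m hm

theorem HS.pow {d : L} {s : S} (hs : HS k xx ww d s) (n : ℕ) : HS k xx ww (n • d) (s ^ n) := by
  induction n with
  | zero => simpa using HS.one
  | succ n ih => rw [pow_succ, succ_nsmul]; exact ih.mul hs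

theorem HS.sum {ι : Type*} {d : L} (T : Finset ι) (s : ι → S)
    (hs : ∀ i ∈ T, HS k xx ww d (s i)) : HS k xx ww d (∑ i ∈ T, s i) := fun M l m hm => by
  rw [Finset.sum_smul]; exact sum_mem fun i hi => hs i hi M l m hm

theorem HS.pr {d : L} {s : S} (hs : HS k xx ww d s) (M : GrMod k xx ww) (l : L)
    (m : M.car) : M.pr (l + d) (s • m) = s • M.pr l m :=
  M.pr_map M (DistribSMul.toAddMonoidHom M.car s) d (hs M) l m

variable (k xx ww) in
/-- The graded pieces of S. -/
def grS (l : L) : AddSubgroup S where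
  carrier := {s | HS k xx ww l s}
  add_mem' := HS.add
  zero_mem' := HS.zero l
  neg_mem' := HS.neg

theorem mem_grS_iff {l : L} {s : S} : s ∈ grS k xx ww l ↔ HS k xx ww l s := Iff.rfl

variable (k xx ww) in
open scoped Classical in
/-- The ring S is graded. -/
class Gd : Prop where
  internal : DirectSum.IsInternal (grS k xx ww)

variable [Gd k xx ww]

variable (k xx ww) in
/-- S as a graded module. -/
def SGr : GrMod k xx ww where
  car := S
  gr := grS k xx ww
  internal := Gd.internal
  const_mem a _ _ hm := ((HS.const a).mul hm).of_eq (zero_add _)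
  var_mem i _ _ hm := ((HS.var i).mul hm).of_eq (add_comm _ _)

variable (k xx ww) in
/-- Homogeneous components in S. -/
noncomputable def prS (l : L) : S →+ S := (SGr k xx ww).pr l

theorem prS_HS (l : L) (s : S) : HS k xx ww l (prS k xx ww l s) :=
  (SGr k xx ww).pr_mem l s

theorem pr_smul_gen (M : GrMod k xx ww) {g : L} {e : M.car} (he : e ∈ M.gr g) (l : L)
    (s : S) : M.pr l (s • e) = prS k xx ww (l - g) s • e := by
  have := (SGr k xx ww).pr_map M
    (LinearMap.toSpanSingleton S M.car e).toAddMonoidHom g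
    (fun l' m hm => by
      have := (show HS k xx ww l' (S := S) m from hm) M g e he
      rw [add_comm] at this
      exact this) (l - g) s
  rw [sub_add_cancel] at this
  exact this

theorem isHom_of_gens {I : Type} [Fintype I] {M N : GrMod k xx ww} {g : I → L}
    {e : I → M.car} (he : ∀ i, e i ∈ M.gr (g i))
    (hspan : ∀ x, ∃ s : I → S, x = ∑ i, s i • e i)
    {φ : M.car →ₗ[S] N.car} (hφ : ∀ i, φ (e i) ∈ N.gr (g i)) : IsHom M N φ := by
  intro l m hm
  obtain ⟨s, hs⟩ := hspan m
  have : m = ∑ i, prS k xx ww (l - g i) (s i) • e i := by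
    rw [← M.pr_same hm]
    conv_lhs => rw [hs]
    rw [map_sum]
    exact Finset.sum_congr rfl fun i _ => pr_smul_gen M (he i) l (s i)
  rw [this, map_sum]
  refine sum_mem fun i _ => ?_
  rw [map_smul]
  have := prS_HS (l - g i) (s i) N _ _ (hφ i)
  rwa [add_sub_cancel] at this

variable (k xx ww) in
/-- The free graded module with basis degrees h. -/
noncomputable def Free (I : Type) [Fintype I]
    (h : I → L) : GrMod k xx ww where
  car := I → S
  gr l :=
    { carrier := {v | ∀ i, HS k xx ww (l - h i) (v i)}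
      add_mem' := fun ha hb i => (ha i).add (hb i)
      zero_mem' := fun _ => HS.zero _
      neg_mem' := fun ha i => (ha i).neg }
  internal := by
    classical
    refine isInternal_of_proj _
      (fun l => AddMonoidHom.pi fun i => (prS k xx ww (l - h i)).comp (Pi.evalAddMonoidHom _ i)) ?_ ?_ ?_
    · intro l m hm
      funext i
      exact (SGr k xx ww).pr_same (hm i)
    · intro l l' m hm hl
      funext i
      exact (SGr k xx ww).pr_ne (hm i) (by simpa using hl)
    · intro m
      rw [← Finset.univ_sum_single m]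
      refine AddSubgroup.sum_mem _ fun i _ => ?_
      obtain ⟨T, hT⟩ := (SGr k xx ww).pr_sum (m i)
      have hT' : m i = ∑ l ∈ T, prS k xx ww l (m i) := hT.symm
      rw [hT', ← AddMonoidHom.single_apply, map_sum]
      refine AddSubgroup.sum_mem _ fun l _ => AddSubgroup.mem_iSup_of_mem (l + h i) fun j => ?_
      by_cases hj : j = i
      · subst hj
        simpa using prS_HS l (m j)
      · simpa [hj] using HS.zero _
  const_mem a l m hm i := ((HS.const a).mul (hm i)).of_eq (zero_add _)
  var_mem j l m hm i := ((HS.var j).mul (hm i)).of_eq (by abel)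

theorem mem_Free {I : Type} [Fintype I] {h : I → L} {l : L} {v : I → S} :
    v ∈ (Free k xx ww I h).gr l ↔ ∀ i, HS k xx ww (l - h i) (v i) := Iff.rfl

theorem single_mem_Free {I : Type} [Fintype I] [DecidableEq I] (h : I → L) (i : I) :
    (Pi.single i 1 : I → S) ∈ (Free k xx ww I h).gr (h i) := by
  intro j
  by_cases hj : j = i
  · subst hj
    simpa using HS.one
  · simpa [hj] using HS.zero _

theorem isLineSum_Free {I : Type} [Fintype I] (h : I → L) : IsLineSum (Free k xx ww I h) := by
  classical
  refine ⟨Fintype.card I, (Pi.basisFun S I).reindex (Fintype.equivFin I),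
    fun j => h ((Fintype.equivFin I).symm j), fun j => ?_⟩
  have := single_mem_Free (k := k) (xx := xx) (ww := ww) h ((Fintype.equivFin I).symm j)
  rw [← Pi.basisFun_apply, ← Module.Basis.reindex_apply] at this
  exact this

theorem mulVec_mem_Free {I J : Type} [Fintype I] [Fintype J] {h : I → L} {h' : J → L}
    {d : L} {A : Matrix J I S} (hA : ∀ j i, HS k xx ww (h i + d - h' j) (A j i))
    {l : L} {v : I → S} (hv : v ∈ (Free k xx ww I h).gr l) :
    A *ᵥ v ∈ (Free k xx ww J h').gr (l + d) := by
  intro j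
  exact HS.sum _ _ fun i _ => ((hA j i).mul (hv i)).of_eq (by abel)

theorem lincomb_mem {I : Type} [Fintype I] {h : I → L} {N : GrMod k xx ww} {n : I → N.car}
    (hn : ∀ i, n i ∈ N.gr (h i)) {l : L} {v : I → S}
    (hv : v ∈ (Free k xx ww I h).gr l) : ∑ i, v i • n i ∈ N.gr l := by
  refine sum_mem fun i _ => ?_
  have := hv i N _ _ (hn i)
  rwa [add_sub_cancel] at this

omit [Gd k xx ww] in
/-- The kernel of a homogeneous map. -/
noncomputable def GrMod.ker (M N : GrMod k xx ww) (φ : M.car →ₗ[S] N.car) (d : L)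
    (hφ : ∀ l m, m ∈ M.gr l → φ m ∈ N.gr (l + d)) : GrMod k xx ww where
  car := LinearMap.ker φ
  gr l := (M.gr l).comap (LinearMap.ker φ).subtype.toAddMonoidHom
  internal := by
    classical
    have hk : ∀ l (m : LinearMap.ker φ), M.pr l m ∈ LinearMap.ker φ := by
      intro l m
      have := M.pr_map N φ.toAddMonoidHom d hφ l m
      have h2 : φ m = 0 := m.2
      simp only [LinearMap.toAddMonoidHom_coe, h2, map_zero] at this
      exact this.symm
    refine isInternal_of_proj _
      (fun l => ((M.pr l).comp (LinearMap.ker φ).subtype.toAddMonoidHom).codRestrict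
        (LinearMap.ker φ) (hk l)) ?_ ?_ ?_
    · intro l m hm
      exact Subtype.ext (M.pr_same hm)
    · intro l l' m hm hl
      exact Subtype.ext (M.pr_ne hm hl)
    · intro m
      obtain ⟨T, hT⟩ := M.pr_sum m
      have : m = ∑ l ∈ T, (⟨M.pr l m, hk l m⟩ : LinearMap.ker φ) := by
        apply Subtype.ext
        simp [hT]
      rw [this]
      exact AddSubgroup.sum_mem _ fun l _ => AddSubgroup.mem_iSup_of_mem l (M.pr_mem l m)
  const_mem a l m hm := M.const_mem a l m.1 hm
  var_mem i l m hm := M.var_mem i l m.1 hm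

end Pool.Agent.MP_9d3c7b_al
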