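import Pool.Agent.MP_9d3c7b_al.Defs

/-!
Vector bundles on a weighted projective line with three weights, in the Geigle-Lenzing
description: vect X is the category of L-graded maximal Cohen-Macaulay S-modules, line bundles
are the shifts of S, and distinguished exact sequences are the exact sequences of such modules.
-/

namespace Pool.Agent.MP_9d3c7b_al

open MvPolynomial

universe u

variable {k : Type u} [Field k] {S : Type u} [CommRing S] [Algebra k S] {L : Type} [AddCommGroup L]
  {xx : Fin 3 → S} {ww : Fin 3 → L}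

/-- Degree-preserving S-linear maps. -/
def IsHom (M N : GrMod k xx ww) (φ : M.car →ₗ[S] N.car) : Prop :=
  ∀ (l : L) (m : M.car), m ∈ M.gr l → φ m ∈ N.gr l

/-- Finite direct sums of line bundles S(l): modules with a finite homogeneous basis. -/
def IsLineSum (G : GrMod k xx ww) : Prop :=
  ∃ (n : ℕ) (b : Module.Basis (Fin n) S G.car) (h : Fin n → L), ∀ i, b i ∈ G.gr (h i)

/-- Maps factoring through a finite direct sum of line bundles. -/
def StZero (M N : GrMod k xx ww) (φ : M.car →ₗ[S] N.car) : Prop :=
  ∃ G : GrMod k xx ww, IsLineSum G ∧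
    ∃ (α : M.car →ₗ[S] G.car) (β : G.car →ₗ[S] N.car),
      IsHom M G α ∧ IsHom G N β ∧ φ = β ∘ₗ α

/-- Short exact sequences of graded modules. -/
def SES (A B C : GrMod k xx ww) : Prop :=
  ∃ (α : A.car →ₗ[S] B.car) (β : B.car →ₗ[S] C.car),
    IsHom A B α ∧ IsHom B C β ∧
      Function.Injective α ∧ Function.Exact α β ∧ Function.Surjective β

/-- Vector bundles: finitely generated graded modules on which x_1, x_2 is a regular sequence. -/
structure VB (k : Type u) [Field k] {S : Type u} [CommRing S] [Algebra k S] {L : Type}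
    [AddCommGroup L] (xx : Fin 3 → S) (ww : Fin 3 → L) extends GrMod k xx ww where
  fin : Module.Finite S car
  reg : RingTheory.Sequence.IsWeaklyRegular car [xx 0, xx 1]

/-- The twist of a vector bundle. -/
def VB.twist (E : VB k xx ww) (d : L) : VB k xx ww where
  toGrMod := E.toGrMod.twist d
  fin := E.fin
  reg := E.reg

/-- Isomorphism in the stable category. -/
def StIso (M N : GrMod k xx ww) : Prop :=
  ∃ (α : M.car →ₗ[S] N.car) (β : N.car →ₗ[S] M.car), IsHom M N α ∧ IsHom N M β ∧
    StZero M M (β ∘ₗ α - LinearMap.id) ∧ StZero N N (α ∘ₗ β - LinearMap.id)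

/-- The stable Hom space vanishes. -/
def StHomZero (M N : GrMod k xx ww) : Prop :=
  ∀ φ : M.car →ₗ[S] N.car, IsHom M N φ → StZero M N φ

/-- The stable endomorphism ring is k. -/
def StEndField (M : GrMod k xx ww) : Prop :=
  ¬ StZero M M LinearMap.id ∧ ∀ φ : M.car →ₗ[S] M.car, IsHom M M φ →
    ∃ a : k, StZero M M (φ - algebraMap k S a • LinearMap.id)

/-- Y is a suspension X[1]: there is an exact sequence 0 → X → G → Y → 0, G a sum of line bundles. -/
def Susp (X Y : VB k xx ww) : Prop :=
  ∃ G : GrMod k xx ww, IsLineSum G ∧ SES X.toGrMod G Y.toGrMod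

/-- Exceptional objects of the stable category. -/
def Exceptional (E : VB k xx ww) : Prop :=
  StEndField E.toGrMod ∧
  (∀ Y : VB k xx ww, Relation.TransGen Susp E Y → StHomZero E.toGrMod Y.toGrMod) ∧
  (∀ X : VB k xx ww, Relation.TransGen Susp X E → StHomZero E.toGrMod X.toGrMod)

/-- Object triples of the distinguished triangles of the stable category. -/
def IsTriangle (A B C : VB k xx ww) : Prop :=
  ∃ A' B' C' : VB k xx ww, StIso A.toGrMod A'.toGrMod ∧ StIso B.toGrMod B'.toGrMod ∧
    StIso C.toGrMod C'.toGrMod ∧ SES A'.toGrMod B'.toGrMod C'.toGrMod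

/-- The Grothendieck group of the stable category. -/
abbrev KZero (k : Type u) [Field k] {S : Type u} [CommRing S] [Algebra k S] {L : Type}
    [AddCommGroup L] (xx : Fin 3 → S) (ww : Fin 3 → L) : Type (u + 1) :=
  FreeAbelianGroup (VB k xx ww) ⧸ AddSubgroup.closure
    {v | ∃ A B C : VB k xx ww, IsTriangle A B C ∧
      v = FreeAbelianGroup.of B - FreeAbelianGroup.of A - FreeAbelianGroup.of C}

/-- The class of an object in the Grothendieck group. -/
def cls (E : VB k xx ww) : KZero k xx ww := QuotientAddGroup.mk (FreeAbelianGroup.of E)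

end Pool.Agent.MP_9d3c7b_al
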