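import Pool.Agent.MP_9d3c7b_al.Basic

/-! The grading group, the coordinate ring and graded modules of a weighted projective line with
three weights. -/

namespace Pool.Agent.MP_9d3c7b_al

open MvPolynomial

universe u

/-- The relations p_i x_i = p_j x_j. -/
def relL (p : Fin 3 → ℕ) : AddSubgroup (FreeAbelianGroup (Fin 3)) :=
  AddSubgroup.closure
    {v | ∃ i j : Fin 3, v = p i • FreeAbelianGroup.of i - p j • FreeAbelianGroup.of j}

/-- The grading group L on generators x_i with p_i x_i = p_j x_j. -/
abbrev LL (p : Fin 3 → ℕ) : Type := FreeAbelianGroup (Fin 3) ⧸ relL p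

/-- The generators x_i of L. -/
def xv (p : Fin 3 → ℕ) (i : Fin 3) : LL p := QuotientAddGroup.mk (FreeAbelianGroup.of i)

/-- The canonical element c. -/
def cv (p : Fin 3 → ℕ) : LL p := p 0 • xv p 0

/-- The defining polynomial of S. -/
noncomputable def fpoly (k : Type u) [Field k] (p : Fin 3 → ℕ) (lam : k) :
    MvPolynomial (Fin 3) k := X 2 ^ p 2 - X 1 ^ p 1 + C lam * X 0 ^ p 0

/-- The ring S. -/
abbrev SS (k : Type u) [Field k] (p : Fin 3 → ℕ) (lam : k) : Type u :=
  MvPolynomial (Fin 3) k ⧸ Ideal.span {fpoly k p lam}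

/-- The images of the variables in S. -/
noncomputable def xs (k : Type u) [Field k] (p : Fin 3 → ℕ) (lam : k) (i : Fin 3) : SS k p lam :=
  Ideal.Quotient.mk _ (X i)

open scoped Classical in
/-- An L-graded S-module, where S is generated by the xx i of degrees ww i. -/
structure GrMod (k : Type u) [Field k] {S : Type u} [CommRing S] [Algebra k S] {L : Type}
    [AddCommGroup L] (xx : Fin 3 → S) (ww : Fin 3 → L) where
  car : Type u
  [acg : AddCommGroup car]
  [mod : Module S car]
  gr : L → AddSubgroup car
  internal : DirectSum.IsInternal gr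
  const_mem : ∀ (a : k) (l : L) (m : car), m ∈ gr l → algebraMap k S a • m ∈ gr l
  var_mem : ∀ (i : Fin 3) (l : L) (m : car), m ∈ gr l → xx i • m ∈ gr (l + ww i)

attribute [instance] GrMod.acg GrMod.mod

variable {k : Type u} [Field k] {S : Type u} [CommRing S] [Algebra k S] {L : Type} [AddCommGroup L]
  {xx : Fin 3 → S} {ww : Fin 3 → L}

open scoped Classical in
/-- The twist M(d), with M(d)_l = M_(l+d). -/
def GrMod.twist (M : GrMod k xx ww) (d : L) : GrMod k xx ww where
  car := M.car
  gr l := M.gr (l + d)
  internal := isInternal_shift M.gr M.internal d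
  const_mem a l m hm := M.const_mem a _ m hm
  var_mem i l m hm := by
    rw [add_right_comm]
    exact M.var_mem i _ m hm

end Pool.Agent.MP_9d3c7b_al
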