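import Pool.Agent.MP_9d3c7b_al.Main

namespace Pool.Agent.MP_9d3c7b_al.OldCounter

open Pool.Agent.MP_9d3c7b_al

universe u

/-- For the weight type (2,5,5), which has negative Euler characteristic, the stable category of
vector bundles has exceptional objects E, F with the same class in K_0 such that F is not
isomorphic to any E(nc). -/
theorem result (k : Type u) [Field k] [IsAlgClosed k] (lam : k) (h0 : lam ≠ 0) :
    ∃ p : Fin 3 → ℕ, p = ![2, 5, 5] ∧ (∀ i, 2 ≤ p i) ∧ (2 : ℚ) - ∑ i, (1 - 1 / (p i : ℚ)) < 0 ∧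
      ∃ E F : VB k (xs k p lam) (xv p), Exceptional E ∧ Exceptional F ∧ cls E = cls F ∧
        ∀ n : ℤ, ¬ StIso F.toGrMod (E.twist (n • cv p)).toGrMod :=
  ⟨![2, 5, 5], rfl, by decide, by simp [Fin.sum_univ_three]; norm_num,
    main_concrete k lam h0⟩

end Pool.Agent.MP_9d3c7b_al.OldCounter
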